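import Pool.Agent.W23.SG.Defs
import Pool.Agent.H442R2.BX.Tt
import Pool.Agent.H442R2.BX.Ex

/-!
SG project, task TTL: off-diagonal correlations for linear forms.
-/

set_option autoImplicit false

namespace Pool.Agent.W177.SG

open Finset
open Pool.Agent.H442R2
open Pool.Agent.H442R2.KF
open Pool.Agent.H442R2.BX
open Pool.Agent.H442R2.BX.TaskTT (Wt_nonneg Wt_le_one abs_dl_le nuS_nonneg nuS_le restr abs_dsum_le)
open Pool.Agent.H442R2.BX.TaskEX (II II_one II_abs II_lcm summable_bd nuS_eq nuS_abs dl_eq dl_abs)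
open Pool.Agent.W23.SG

/-- `∑_n W(n) 1_{q | n} 1_{d | L(n)} 1_{d' | L'(n)}` -/
noncomputable def SL (N : ℕ) (L L' : ℤ × ℕ) (q d d' : ℕ) : ℝ :=
  ∑' n : ℤ, if ((q : ℤ) ∣ n ∧ (d : ℤ) ∣ lf L n ∧ (d' : ℤ) ∣ lf L' n) then Wt N n else 0

/-! ### expansion -/

lemma ite_eq (N : ℕ) (L L' : ℤ × ℕ) (q d d' : ℕ) (n : ℤ) :
    (if ((q : ℤ) ∣ n ∧ (d : ℤ) ∣ lf L n ∧ (d' : ℤ) ∣ lf L' n) then Wt N n else 0) =
      Wt N n * (II q n * II d (lf L n) * II d' (lf L' n)) := by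
  unfold II
  by_cases h1 : (q : ℤ) ∣ n
  · by_cases h2 : (d : ℤ) ∣ lf L n
    · by_cases h3 : (d' : ℤ) ∣ lf L' n
      · rw [if_pos ⟨h1, h2, h3⟩, if_pos h1, if_pos h2, if_pos h3]; ring
      · rw [if_neg (fun h => h3 h.2.2), if_neg h3]; ring
    · rw [if_neg (fun h => h2 h.2.1), if_neg h2]; ring
  · rw [if_neg (fun h => h1 h.1), if_neg h1]; ring

lemma summable_ind (N : ℕ) (hN : 1 ≤ N) (P : ℤ → Prop) [DecidablePred P] :
    Summable (fun n : ℤ => if P n then Wt N n else 0) := by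
  have h := summable_bd N hN (fun n => if P n then (1 : ℝ) else 0) 1 (fun n => by
    split_ifs <;> simp)
  refine h.congr fun n => ?_
  split_ifs <;> simp

lemma hasSum_SL (N : ℕ) (hN : 1 ≤ N) (L L' : ℤ × ℕ) (q d d' : ℕ) :
    HasSum (fun n : ℤ => Wt N n * (II q n * II d (lf L n) * II d' (lf L' n)))
      (SL N L L' q d d') := by
  have h1 : Summable (fun n : ℤ => Wt N n * (II q n * II d (lf L n) * II d' (lf L' n))) := by
    refine summable_bd N hN _ 1 fun n => ?_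
    rw [abs_mul, abs_mul]
    have k1 := II_abs q n
    have k2 := II_abs d (lf L n)
    have k3 := II_abs d' (lf L' n)
    calc |II q n| * |II d (lf L n)| * |II d' (lf L' n)| ≤ 1 * 1 * 1 := by gcongr
      _ = 1 := by norm_num
  have h2 : SL N L L' q d d' =
      ∑' n : ℤ, Wt N n * (II q n * II d (lf L n) * II d' (lf L' n)) := by
    unfold SL
    exact tsum_congr fun n => ite_eq N L L' q d d' n
  rw [h2]
  exact h1.hasSum

lemma RL_abs (c : ℕ → ℝ) (X : ℕ) (L : ℤ × ℕ) (n : ℤ) :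
    |RL c X L n| ≤ ∑ d ∈ Icc 1 X, |c d| * 2 := by
  unfold RL
  refine (Finset.abs_sum_le_sum_abs _ _).trans (Finset.sum_le_sum fun d _ => ?_)
  rw [abs_mul]
  exact mul_le_mul_of_nonneg_left (dl_abs _ _) (abs_nonneg _)

lemma rL_abs (c : ℕ → ℝ) (X : ℕ) (L : ℤ × ℕ) (n : ℤ) :
    |rL c X L n| ≤ ∑ d ∈ Icc 1 X, |c d| * 2 := by
  unfold rL
  split_ifs
  · rw [abs_zero]
    exact Finset.sum_nonneg fun d _ => by positivity
  · exact RL_abs c X L n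

lemma expand (N z X : ℕ) (hN : 1 ≤ N) (lam c c' : ℕ → ℝ) (L L' : ℤ × ℕ) :
    ∑' n : ℤ, Wt N n * nuS lam z n * (RL c X L n * RL c' X L' n) =
      ∑ q₁ ∈ Icc 1 z, ∑ q₂ ∈ Icc 1 z, lam q₁ * lam q₂ * ∑ d ∈ Icc 1 X, ∑ d' ∈ Icc 1 X,
        c d * c' d' * (SL N L L' (Nat.lcm q₁ q₂) d d' - SL N L L' (Nat.lcm q₁ q₂) d 1 / d' -
          SL N L L' (Nat.lcm q₁ q₂) 1 d' / d + SL N L L' (Nat.lcm q₁ q₂) 1 1 / (d * d')) := by
  have hT : ∀ q d d' : ℕ, HasSum (fun n : ℤ =>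
      Wt N n * (II q n * II d (lf L n) * II d' (lf L' n)) -
      Wt N n * (II q n * II d (lf L n) * II 1 (lf L' n)) / (d' : ℝ) -
      Wt N n * (II q n * II 1 (lf L n) * II d' (lf L' n)) / (d : ℝ) +
      Wt N n * (II q n * II 1 (lf L n) * II 1 (lf L' n)) / ((d : ℝ) * d'))
      (SL N L L' q d d' - SL N L L' q d 1 / d' - SL N L L' q 1 d' / d +
        SL N L L' q 1 1 / (d * d')) := by
    intro q d d'
    exact (((hasSum_SL N hN L L' q d d').sub ((hasSum_SL N hN L L' q d 1).div_const _)).sub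
      ((hasSum_SL N hN L L' q 1 d').div_const _)).add
      ((hasSum_SL N hN L L' q 1 1).div_const _)
  have hS : HasSum (fun n : ℤ => ∑ q₁ ∈ Icc 1 z, ∑ q₂ ∈ Icc 1 z, lam q₁ * lam q₂ *
      ∑ d ∈ Icc 1 X, ∑ d' ∈ Icc 1 X, c d * c' d' * (
      Wt N n * (II (Nat.lcm q₁ q₂) n * II d (lf L n) * II d' (lf L' n)) -
      Wt N n * (II (Nat.lcm q₁ q₂) n * II d (lf L n) * II 1 (lf L' n)) / (d' : ℝ) -
      Wt N n * (II (Nat.lcm q₁ q₂) n * II 1 (lf L n) * II d' (lf L' n)) / (d : ℝ) +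
      Wt N n * (II (Nat.lcm q₁ q₂) n * II 1 (lf L n) * II 1 (lf L' n)) / ((d : ℝ) * d')))
      (∑ q₁ ∈ Icc 1 z, ∑ q₂ ∈ Icc 1 z, lam q₁ * lam q₂ * ∑ d ∈ Icc 1 X, ∑ d' ∈ Icc 1 X,
        c d * c' d' * (SL N L L' (Nat.lcm q₁ q₂) d d' - SL N L L' (Nat.lcm q₁ q₂) d 1 / d' -
          SL N L L' (Nat.lcm q₁ q₂) 1 d' / d + SL N L L' (Nat.lcm q₁ q₂) 1 1 / (d * d'))) := by
    refine hasSum_sum fun q₁ _ => hasSum_sum fun q₂ _ => HasSum.mul_left _ ?_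
    exact hasSum_sum fun d _ => hasSum_sum fun d' _ => HasSum.mul_left _ (hT _ d d')
  rw [← hS.tsum_eq]
  refine tsum_congr fun n => ?_
  rw [nuS_eq]
  have hR : RL c X L n * RL c' X L' n = ∑ d ∈ Icc 1 X, ∑ d' ∈ Icc 1 X, c d * c' d' *
      ((II d (lf L n) - 1 / (d : ℝ)) * (II d' (lf L' n) - 1 / (d' : ℝ))) := by
    unfold RL
    rw [Finset.sum_mul_sum]
    refine Finset.sum_congr rfl fun d _ => Finset.sum_congr rfl fun d' _ => ?_
    rw [dl_eq, dl_eq]; ring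
  obtain ⟨G, hG⟩ : ∃ G, G = ∑ d ∈ Icc 1 X, ∑ d' ∈ Icc 1 X, c d * c' d' *
      ((II d (lf L n) - 1 / (d : ℝ)) * (II d' (lf L' n) - 1 / (d' : ℝ))) := ⟨_, rfl⟩
  rw [hR, ← hG, Finset.mul_sum, Finset.sum_mul]
  refine Finset.sum_congr rfl fun q₁ _ => ?_
  rw [Finset.mul_sum, Finset.sum_mul]
  refine Finset.sum_congr rfl fun q₂ _ => ?_
  rw [hG]
  have e : Wt N n * (lam q₁ * lam q₂ * II (Nat.lcm q₁ q₂) n) *
      (∑ d ∈ Icc 1 X, ∑ d' ∈ Icc 1 X, c d * c' d' *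
      ((II d (lf L n) - 1 / (d : ℝ)) * (II d' (lf L' n) - 1 / (d' : ℝ)))) =
      lam q₁ * lam q₂ * ((Wt N n * II (Nat.lcm q₁ q₂) n) *
      (∑ d ∈ Icc 1 X, ∑ d' ∈ Icc 1 X, c d * c' d' *
      ((II d (lf L n) - 1 / (d : ℝ)) * (II d' (lf L' n) - 1 / (d' : ℝ))))) := by ring
  rw [e, Finset.mul_sum]
  congr 1
  refine Finset.sum_congr rfl fun d _ => ?_
  rw [Finset.mul_sum]
  refine Finset.sum_congr rfl fun d' _ => ?_
  rw [II_one, II_one, one_div, one_div, div_eq_mul_inv, div_eq_mul_inv, div_eq_mul_inv, mul_inv]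
  ring

/-! ### congruences -/

lemma lin_root (a : ℤ) (b d : ℕ) (h : Nat.Coprime d b) :
    ∃ r : ℤ, ∀ n : ℤ, (d : ℤ) ∣ a + b * n ↔ (d : ℤ) ∣ n - r := by
  have hc : IsCoprime (d : ℤ) (b : ℤ) := Nat.isCoprime_iff_coprime.2 h
  have hc' := hc
  obtain ⟨u, v, huv⟩ := hc'
  refine ⟨-(a * v), fun n => ?_⟩
  have e : a + (b : ℤ) * n = b * (n - -(a * v)) + d * (a * u) := by
    have : a = a * (u * d + v * b) := by rw [huv, mul_one]
    linear_combination this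
  rw [e, Int.dvd_add_left (Dvd.intro _ rfl)]
  exact ⟨fun h => IsCoprime.dvd_of_dvd_mul_left hc h, fun h => Dvd.dvd.mul_left h _⟩

lemma crt2 (m m' : ℕ) (h : Nat.Coprime m m') (r r' : ℤ) :
    ∃ s : ℤ, ∀ n : ℤ, ((m : ℤ) ∣ n - r ∧ (m' : ℤ) ∣ n - r') ↔ ((m * m' : ℕ) : ℤ) ∣ n - s := by
  have hc : IsCoprime (m : ℤ) (m' : ℤ) := Nat.isCoprime_iff_coprime.2 h
  have hc' := hc
  obtain ⟨u, v, huv⟩ := hc'
  refine ⟨r * (v * m') + r' * (u * m), fun n => ?_⟩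
  have e1 : n - (r * (v * m') + r' * (u * m)) = (n - r) + m * (u * (r - r')) := by
    linear_combination (-r) * huv
  have e2 : n - (r * (v * m') + r' * (u * m)) = (n - r') + m' * (v * (r' - r)) := by
    linear_combination (-r') * huv
  push_cast
  constructor
  · rintro ⟨h1, h2⟩
    refine hc.mul_dvd ?_ ?_
    · rw [e1]; exact dvd_add h1 (Dvd.intro _ rfl)
    · rw [e2]; exact dvd_add h2 (Dvd.intro _ rfl)
  · intro h1
    constructor
    · have h2 : (m : ℤ) ∣ n - (r * (v * m') + r' * (u * m)) := (Dvd.intro _ rfl).trans h1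
      rw [e1] at h2
      exact (Int.dvd_add_left (Dvd.intro _ rfl)).1 h2
    · have h2 : (m' : ℤ) ∣ n - (r * (v * m') + r' * (u * m)) := (Dvd.intro_left _ rfl).trans h1
      rw [e2] at h2
      exact (Int.dvd_add_left (Dvd.intro _ rfl)).1 h2

lemma SL_prog (N : ℕ) (L L' : ℤ × ℕ) (q d d' : ℕ) (h1 : Nat.Coprime q d) (h2 : Nat.Coprime q d')
    (h3 : Nat.Coprime d d') (h4 : Nat.Coprime d L.2) (h5 : Nat.Coprime d' L'.2) :
    ∃ s : ℤ, SL N L L' q d d' = ∑' n : ℤ, (if ((q * d * d' : ℕ) : ℤ) ∣ n - s then Wt N n else 0) := by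
  obtain ⟨r, hr⟩ := lin_root L.1 L.2 d h4
  obtain ⟨r', hr'⟩ := lin_root L'.1 L'.2 d' h5
  obtain ⟨s, hs⟩ := crt2 q d h1 0 r
  obtain ⟨t, ht⟩ := crt2 (q * d) d' (Nat.Coprime.mul_left h2 h3) s r'
  refine ⟨t, ?_⟩
  unfold SL
  refine tsum_congr fun n => ?_
  have e : ((q : ℤ) ∣ n ∧ (d : ℤ) ∣ lf L n ∧ (d' : ℤ) ∣ lf L' n) ↔
      ((q * d * d' : ℕ) : ℤ) ∣ n - t := by
    rw [← ht n, ← hs n, sub_zero]
    unfold lf
    rw [hr n, hr' n]
    tauto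
  by_cases h : ((q * d * d' : ℕ) : ℤ) ∣ n - t
  · rw [if_pos h, if_pos (e.2 h)]
  · rw [if_neg h, if_neg (fun h' => h (e.1 h'))]

lemma SL_nonneg (N : ℕ) (L L' : ℤ × ℕ) (q d d' : ℕ) : 0 ≤ SL N L L' q d d' := by
  unfold SL
  refine tsum_nonneg fun n => ?_
  split_ifs
  · exact Wt_nonneg _ _
  · exact le_rfl

lemma SL_le (N : ℕ) (hN : 1 ≤ N) (L L' : ℤ × ℕ) (q d d' : ℕ) :
    SL N L L' q d d' ≤
      ∑' n : ℤ, (if ((d : ℤ) ∣ lf L n ∧ (d' : ℤ) ∣ lf L' n) then Wt N n else 0) := by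
  unfold SL
  refine Summable.tsum_le_tsum (fun n => ?_) (summable_ind N hN _) (summable_ind N hN _)
  by_cases h : ((d : ℤ) ∣ lf L n ∧ (d' : ℤ) ∣ lf L' n)
  · rw [if_pos h]
    split_ifs
    · exact le_rfl
    · exact Wt_nonneg _ _
  · rw [if_neg h, if_neg (fun h' => h h'.2)]

/-! ### one pair `(q₁, q₂)` -/

lemma one_q (N q X : ℕ) (y : ℝ) (hN : 2 ≤ N) (hq : 1 ≤ q) (hXN : X ≤ N)
    (S S1 : ℕ → ℕ → ℝ) (hS0 : ∀ d d', 0 ≤ S d d') (hS1 : ∀ d d', S d d' ≤ S1 d d')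
    (c c' : ℕ → ℝ) (hcb : ∀ d, |c d| ≤ 1) (hcb' : ∀ d, |c' d| ≤ 1)
    (hcs : ∀ d, c d ≠ 0 → d ≤ X ∧ Rough y d) (hcs' : ∀ d, c' d ≠ 0 → d ≤ X ∧ Rough y d)
    (h00 : |S 1 1 - N / q| ≤ 1 / (N : ℝ) ^ 5)
    (h10 : ∀ d, c d ≠ 0 → |S d 1 - N / (q * d)| ≤ 1 / (N : ℝ) ^ 5)
    (h01 : ∀ d, c' d ≠ 0 → |S 1 d - N / (q * d)| ≤ 1 / (N : ℝ) ^ 5)
    (h11 : ∀ d d', c d ≠ 0 → c' d' ≠ 0 → Nat.Coprime d d' →
      |S d d' - N / (q * d * d')| ≤ 1 / (N : ℝ) ^ 5)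
    (BN BR : ℝ)
    (hNC : ∑ d ∈ roughs y X,
      ∑ d' ∈ (roughs y X).filter (fun d' => ¬ Nat.Coprime d d'), S1 d d' ≤ BN)
    (hRB : ∑ d ∈ roughs y X,
      ∑ d' ∈ (roughs y X).filter (fun d' => ¬ Nat.Coprime d d'), 1 / ((d : ℝ) * d') ≤ BR) :
    |∑ d ∈ Icc 1 X, ∑ d' ∈ Icc 1 X,
        c d * c' d' * (S d d' - S d 1 / d' - S 1 d' / d + S 1 1 / (d * d'))| ≤
      4 + BN + 3 * (N + 1) * BR := by
  classical
  have hN0 : (0 : ℝ) < N := by exact_mod_cast (by omega : 0 < N)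
  have hN1 : (1 : ℝ) ≤ N := by exact_mod_cast (by omega : 1 ≤ N)
  have hq0 : (0 : ℝ) < q := by exact_mod_cast (by omega : 0 < q)
  have hq1 : (1 : ℝ) ≤ q := by exact_mod_cast hq
  set R := roughs y X with hRdef
  have hRmem : ∀ d, d ∈ R ↔ (1 ≤ d ∧ d ≤ X) ∧ Rough y d := by
    intro d
    rw [hRdef]; unfold roughs
    rw [Finset.mem_filter, Finset.mem_Icc]
  have hRI : R ⊆ Icc 1 X := by
    intro d hd
    exact Finset.mem_Icc.2 ((hRmem d).1 hd).1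
  have hcR : ∀ d, c d ≠ 0 → d ∈ R := by
    intro d hd
    obtain ⟨h1, h2⟩ := hcs d hd
    exact (hRmem d).2 ⟨⟨h2.1.le, h1⟩, h2⟩
  have hcR' : ∀ d, c' d ≠ 0 → d ∈ R := by
    intro d hd
    obtain ⟨h1, h2⟩ := hcs' d hd
    exact (hRmem d).2 ⟨⟨h2.1.le, h1⟩, h2⟩
  rw [restr R (Icc 1 X) hRI c c' hcR hcR'
    (fun d d' => S d d' - S d 1 / d' - S 1 d' / d + S 1 1 / (d * d'))]
  set B : ℕ → ℕ → ℝ := fun d d' => S d d' - S d 1 / d' - S 1 d' / d + S 1 1 / (d * d') with hBdef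
  change |∑ d ∈ R, ∑ d' ∈ R, c d * c' d' * B d d'| ≤ _
  have hE : |∑ d ∈ R, ∑ d' ∈ R, c d * c' d' * B d d'| ≤
      ∑ d ∈ R, ∑ d' ∈ R, (4 / (N : ℝ) ^ 5 + (if Nat.Coprime d d' then 0 else
        S1 d d' + 3 * (N + 1) * (1 / ((d : ℝ) * d')))) := by
    refine abs_dsum_le R c c' hcb hcb' _ _ ?_ ?_
    · intro d hd d' hd' hcd hcd'
      obtain ⟨⟨hd1, hdX⟩, -⟩ := (hRmem d).1 hd
      obtain ⟨⟨hd1', hdX'⟩, -⟩ := (hRmem d').1 hd'
      have hdr : (1 : ℝ) ≤ d := by exact_mod_cast hd1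
      have hdr' : (1 : ℝ) ≤ d' := by exact_mod_cast hd1'
      have hd0 : (0 : ℝ) < d := by linarith
      have hd0' : (0 : ℝ) < d' := by linarith
      have e1 := h10 d hcd
      have e2 := h01 d' hcd'
      have hN5 : (0 : ℝ) < 1 / (N : ℝ) ^ 5 := by positivity
      have f1 : |(S d 1 - N / (q * d)) / d'| ≤ 1 / (N : ℝ) ^ 5 := by
        rw [abs_div, abs_of_pos hd0', div_le_iff₀ hd0']
        nlinarith
      have f2 : |(S 1 d' - N / (q * d')) / d| ≤ 1 / (N : ℝ) ^ 5 := by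
        rw [abs_div, abs_of_pos hd0, div_le_iff₀ hd0]
        nlinarith
      have f3 : |(S 1 1 - N / q) / (d * d')| ≤ 1 / (N : ℝ) ^ 5 := by
        have : (0 : ℝ) < d * d' := by positivity
        rw [abs_div, abs_of_pos this, div_le_iff₀ this]
        have : (1 : ℝ) ≤ d * d' := by nlinarith
        nlinarith
      have hid : B d d' = (S d d' - N / (q * d * d')) -
          (S d 1 - N / (q * d)) / d' - (S 1 d' - N / (q * d')) / d +
          (S 1 1 - N / q) / (d * d') := by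
        rw [hBdef]
        field_simp
        ring
      have h45 : (4 : ℝ) / (N : ℝ) ^ 5 = 1 / (N : ℝ) ^ 5 + 1 / (N : ℝ) ^ 5 + 1 / (N : ℝ) ^ 5 +
          1 / (N : ℝ) ^ 5 := by ring
      have g1 := abs_le.1 f1
      have g2 := abs_le.1 f2
      have g3 := abs_le.1 f3
      by_cases hcop : Nat.Coprime d d'
      · have g0 := abs_le.1 (h11 d d' hcd hcd' hcop)
        rw [if_pos hcop, add_zero, hid]
        rw [abs_le, h45]
        constructor <;> linarith [g0.1, g0.2, g1.1, g1.2, g2.1, g2.2, g3.1, g3.2]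
      · rw [if_neg hcop, hid]
        have hs := hS0 d d'
        have hs1 := hS1 d d'
        have hx : (0 : ℝ) ≤ N / (q * d * d') := by positivity
        have hx2 : (N : ℝ) / (q * d * d') ≤ 3 * (N + 1) * (1 / ((d : ℝ) * d')) := by
          rw [mul_one_div]
          rw [div_le_div_iff₀ (by positivity) (by positivity)]
          have : (0 : ℝ) < d * d' := by positivity
          have h5 : (N : ℝ) ≤ 3 * (N + 1) * q := by nlinarith
          calc (N : ℝ) * (d * d') ≤ (3 * (N + 1) * q) * (d * d') :=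
                mul_le_mul_of_nonneg_right h5 this.le
            _ = 3 * (N + 1) * (q * d * d') := by ring
        have hx3 : (0 : ℝ) ≤ 3 * ((N : ℝ) + 1) * (1 / ((d : ℝ) * d')) := by positivity
        rw [abs_le, h45]
        constructor <;> linarith [g1.1, g1.2, g2.1, g2.2, g3.1, g3.2]
    · intro d hd d' hd'
      have hs := (hS0 d d').trans (hS1 d d')
      have h5 : (0 : ℝ) ≤ 4 / (N : ℝ) ^ 5 := by positivity
      split_ifs
      · linarith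
      · have : (0 : ℝ) ≤ 3 * ((N : ℝ) + 1) * (1 / ((d : ℝ) * d')) := by positivity
        linarith
  refine hE.trans ?_
  have h1 : ∑ d ∈ R, ∑ d' ∈ R, (4 / (N : ℝ) ^ 5 + (if Nat.Coprime d d' then 0 else
      S1 d d' + 3 * (N + 1) * (1 / ((d : ℝ) * d')))) =
      (R.card : ℝ) ^ 2 * (4 / (N : ℝ) ^ 5) +
      ∑ d ∈ R, ∑ d' ∈ R.filter (fun d' => ¬ Nat.Coprime d d'), S1 d d' +
      3 * (N + 1) * ∑ d ∈ R, ∑ d' ∈ R.filter (fun d' => ¬ Nat.Coprime d d'),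
        1 / ((d : ℝ) * d') := by
    rw [Finset.mul_sum]
    have h2 : (R.card : ℝ) ^ 2 * (4 / (N : ℝ) ^ 5) = ∑ d ∈ R, ∑ d' ∈ R, 4 / (N : ℝ) ^ 5 := by
      simp only [Finset.sum_const, nsmul_eq_mul]
      ring
    rw [h2, ← Finset.sum_add_distrib, ← Finset.sum_add_distrib]
    refine Finset.sum_congr rfl fun d _ => ?_
    rw [Finset.mul_sum, Finset.sum_filter, Finset.sum_filter, ← Finset.sum_add_distrib,
      ← Finset.sum_add_distrib]
    refine Finset.sum_congr rfl fun d' _ => ?_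
    by_cases h : Nat.Coprime d d'
    · simp [h]
    · simp [h]
      ring
  rw [h1]
  have hcard : (R.card : ℝ) ≤ N := by
    have h3 : R.card ≤ (Icc 1 X).card := Finset.card_le_card hRI
    rw [Nat.card_Icc] at h3
    exact_mod_cast (by omega : R.card ≤ N)
  have h4 : (R.card : ℝ) ^ 2 * (4 / (N : ℝ) ^ 5) ≤ 4 := by
    rw [mul_div_assoc', div_le_iff₀ (by positivity)]
    have h5 : (R.card : ℝ) ^ 2 ≤ (N : ℝ) ^ 2 := pow_le_pow_left₀ (by positivity) hcard 2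
    have h6 : (N : ℝ) ^ 2 ≤ (N : ℝ) ^ 5 := pow_le_pow_right₀ hN1 (by norm_num)
    linarith
  have h7 : 3 * ((N : ℝ) + 1) * ∑ d ∈ R, ∑ d' ∈ R.filter (fun d' => ¬ Nat.Coprime d d'),
        1 / ((d : ℝ) * d') ≤ 3 * (N + 1) * BR :=
    mul_le_mul_of_nonneg_left hRB (by positivity)
  linarith

/-! ### the zeros of the forms -/

lemma zero_set (L : ℤ × ℕ) (h : 1 ≤ L.2) : ∃ Z : Finset ℤ, Z.card ≤ 1 ∧ ∀ n, n ∈ Z ↔ lf L n = 0 := by
  classical
  by_cases he : ∃ n, lf L n = 0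
  · obtain ⟨n0, hn0⟩ := he
    refine ⟨{n0}, by simp, fun n => ?_⟩
    rw [Finset.mem_singleton]
    constructor
    · rintro rfl; exact hn0
    · intro hn
      unfold lf at hn hn0
      have h1 : (L.2 : ℤ) * (n - n0) = 0 := by linear_combination hn - hn0
      rcases mul_eq_zero.1 h1 with h2 | h2
      · omega
      · omega
  · exact ⟨∅, by simp, fun n => ⟨fun h => absurd h (Finset.notMem_empty n), fun h => absurd ⟨n, h⟩ he⟩⟩

lemma zero_ne (N : ℕ) (L L' : ℤ × ℕ) (hL : Fo N L) (hL' : Fo N L') (hne : L ≠ L') (n : ℤ)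
    (h : lf L n = 0) : lf L' n ≠ 0 := by
  intro h'
  apply hne
  have key : ∀ M : ℤ × ℕ, Fo N M → lf M n = 0 → M.2 = 1 ∧ M.1 = -n := by
    intro M hM h0
    unfold lf at h0
    have h1 : (M.2 : ℤ) ∣ M.1 := ⟨-n, by linear_combination h0⟩
    have h2 : (M.2 : ℤ) ∣ (Int.gcd M.1 M.2 : ℤ) := Int.dvd_coe_gcd h1 dvd_rfl
    rw [hM.cop] at h2
    have h3 : M.2 = 1 := by
      have := Int.natCast_dvd_natCast.1 h2
      exact Nat.dvd_one.1 this
    refine ⟨h3, ?_⟩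
    rw [h3] at h0
    push_cast at h0
    linarith
  obtain ⟨a1, a2⟩ := key L hL h
  obtain ⟨b1, b2⟩ := key L' hL' h'
  exact Prod.ext (a2.trans b2.symm) (a1.trans b1.symm)

lemma Wt_growth (N : ℕ) (n : ℤ) : Wt N n * (1 + |(n : ℝ)| / N) ^ (1 / 4 : ℝ) ≤ 2 := by
  have hx0 : 0 ≤ |(n : ℝ)| / N := by positivity
  set x := |(n : ℝ)| / N with hx
  have h1 : (1 + x) ^ (1 / 4 : ℝ) ≤ 1 + x := by
    calc (1 + x) ^ (1 / 4 : ℝ) ≤ (1 + x) ^ (1 : ℝ) :=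
          Real.rpow_le_rpow_of_exponent_le (by linarith) (by norm_num)
      _ = 1 + x := Real.rpow_one _
  have h2 : Wt N n = Real.exp (-(Real.pi * x ^ 2)) := by
    unfold Wt
    congr 1
    rw [hx, div_pow, div_pow, sq_abs]
    ring
  have h3 : 1 + x ≤ 2 * Real.exp (Real.pi * x ^ 2) := by
    have h4 := Real.add_one_le_exp (Real.pi * x ^ 2)
    have h5 := Real.pi_gt_three
    nlinarith [sq_nonneg (x - 1), sq_nonneg x]
  rw [h2, Real.exp_neg]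
  calc (Real.exp (Real.pi * x ^ 2))⁻¹ * (1 + x) ^ (1 / 4 : ℝ)
      ≤ (Real.exp (Real.pi * x ^ 2))⁻¹ * (2 * Real.exp (Real.pi * x ^ 2)) :=
        mul_le_mul_of_nonneg_left (h1.trans h3) (inv_nonneg.2 (Real.exp_pos _).le)
    _ = 2 := by
        have := Real.exp_pos (Real.pi * x ^ 2)
        field_simp

lemma abs_RL_le (c : ℕ → ℝ) (hc : ∀ d, |c d| ≤ 1) (X : ℕ) (L : ℤ × ℕ) (n : ℤ) :
    |RL c X L n| ≤ X := by
  unfold RL
  calc |∑ d ∈ Icc 1 X, c d * dl d (lf L n)| ≤ ∑ d ∈ Icc 1 X, |c d * dl d (lf L n)| :=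
        Finset.abs_sum_le_sum_abs _ _
    _ ≤ ∑ d ∈ Icc 1 X, (1 : ℝ) := by
        refine Finset.sum_le_sum fun d hd => ?_
        rw [abs_mul]
        have h1 := hc d
        have h2 := abs_dl_le d (Finset.mem_Icc.1 hd).1 (lf L n)
        calc |c d| * |dl d (lf L n)| ≤ 1 * 1 :=
              mul_le_mul h1 h2 (abs_nonneg _) zero_le_one
          _ = 1 := one_mul 1
    _ = X := by simp

lemma abs_rL_le (c : ℕ → ℝ) (hc : ∀ d, |c d| ≤ 1) (X : ℕ) (L : ℤ × ℕ) (n : ℤ) :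
    |rL c X L n| ≤ X := by
  unfold rL
  split_ifs
  · simp
  · exact abs_RL_le c hc X L n

/-- the trivial bound -/
lemma triv (N z X : ℕ) (hN : 1 ≤ N) (hz : z ≤ N) (hX : X ≤ N) (lam : ℕ → ℝ)
    (hl : ∀ q, |lam q| ≤ 1) (c c' : ℕ → ℝ) (hc : ∀ d, |c d| ≤ 1) (hc' : ∀ d, |c' d| ≤ 1)
    (L L' : ℤ × ℕ) :
    |∑' n : ℤ, Wt N n * nuS lam z n * (rL c X L n * rL c' X L' n)| ≤
      (∑' n : ℤ, Wt N n) * (N : ℝ) ^ 4 := by
  have h1 := (KF.TaskS.summable_Wt N hN).hasSum.mul_right ((N : ℝ) ^ 4)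
  rw [← Real.norm_eq_abs]
  refine tsum_of_norm_bounded h1 fun n => ?_
  have hzN : (z : ℝ) ≤ N := by exact_mod_cast hz
  have hXN : (X : ℝ) ≤ N := by exact_mod_cast hX
  have hz0 : (0 : ℝ) ≤ z := by positivity
  have hX0 : (0 : ℝ) ≤ X := by positivity
  have hN0 : (0 : ℝ) ≤ N := by positivity
  have h2 : nuS lam z n ≤ (N : ℝ) ^ 2 :=
    (nuS_le lam hl z n).trans (pow_le_pow_left₀ hz0 hzN 2)
  have h3 : |rL c X L n| ≤ N := (abs_rL_le c hc X L n).trans hXN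
  have h4 : |rL c' X L' n| ≤ N := (abs_rL_le c' hc' X L' n).trans hXN
  rw [Real.norm_eq_abs, abs_mul, abs_mul, abs_mul, abs_of_nonneg (Wt_nonneg N n),
    abs_of_nonneg (nuS_nonneg lam z n), mul_assoc]
  refine mul_le_mul_of_nonneg_left ?_ (Wt_nonneg N n)
  calc nuS lam z n * (|rL c X L n| * |rL c' X L' n|) ≤ (N : ℝ) ^ 2 * (N * N) :=
        mul_le_mul h2 (mul_le_mul h3 h4 (abs_nonneg _) hN0) (by positivity) (by positivity)
    _ = (N : ℝ) ^ 4 := by ring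

theorem TTL (hPA : St_PA) (hPBL : St_PBL) (hNCL : St_NCL) (hRB : BX.St_RB) : St_TTL := by
  intro θ₀ ε hθ₀ hε
  obtain ⟨θ, hθdef⟩ : ∃ θ : ℝ, θ = max θ₀ 0 := ⟨_, rfl⟩
  have hθ : θ < 1 / 2 := by rw [hθdef]; exact max_lt hθ₀ (by norm_num)
  have hθ0 : 0 ≤ θ := by rw [hθdef]; exact le_max_right _ _
  have hθθ : θ₀ ≤ θ := by rw [hθdef]; exact le_max_left _ _
  obtain ⟨N₁, hPA'⟩ := hPA ((1 - 2 * θ) / 2) (by linarith)
  obtain ⟨C₂, hC₂, hNC'⟩ := hNCL ε hε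
  obtain ⟨C₃, hC₃, hRB'⟩ := hRB ε hε
  obtain ⟨N₂, C₄, hC₄, hPB'⟩ := hPBL ε hε
  obtain ⟨ε₀, hε₀, he1, he3⟩ : ∃ ε₀ : ℝ, 0 < ε₀ ∧ ε₀ ≤ (1 - 2 * θ) / 8 ∧ ε₀ ≤ ε / 16 := by
    refine ⟨min ((1 - 2 * θ) / 8) (ε / 16), ?_, min_le_left _ _, min_le_right _ _⟩
    exact lt_min (by linarith) (by positivity)
  obtain ⟨η, hη, hh2, hh3⟩ : ∃ η : ℝ, 0 < η ∧ η ≤ ε / 4 ∧ η ≤ 1 / 4 := by
    refine ⟨min (ε / 4) (1 / 4), ?_, min_le_left _ _, min_le_right _ _⟩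
    exact lt_min (by positivity) (by norm_num)
  set N₀ := max N₁ N₂ with hN₀
  obtain ⟨Bs, hBs⟩ : ∃ Bs : ℝ, Bs = ∑ N ∈ range N₀, (∑' n : ℤ, Wt N n) * (N : ℝ) ^ 4 := ⟨_, rfl⟩
  have hWs : ∀ N : ℕ, 0 ≤ (∑' n : ℤ, Wt N n) * (N : ℝ) ^ 4 := fun N =>
    mul_nonneg (tsum_nonneg fun n => Wt_nonneg N n) (by positivity)
  have hBs0 : 0 ≤ Bs := by rw [hBs]; exact Finset.sum_nonneg fun N _ => hWs N
  refine ⟨ε₀, η, Bs + (4 + 2 * C₂ + 6 * C₃ + 4 * C₄), hε₀, hη, by positivity, ?_⟩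
  intro N z X hN hz hzN hXθ₀ lam hlam L L' hL hL' hne c c' hc hc'
  have hN0 : (0 : ℝ) < N := by exact_mod_cast (by omega : 0 < N)
  have hN1 : (1 : ℝ) ≤ N := by exact_mod_cast (by omega : 1 ≤ N)
  have hN1' : (1 : ℝ) < N := by exact_mod_cast (by omega : 1 < N)
  have hNle : ∀ s t : ℝ, s ≤ t → (N : ℝ) ^ s ≤ (N : ℝ) ^ t := fun s t hst =>
    Real.rpow_le_rpow_of_exponent_le hN1 hst
  have hXθ : (X : ℝ) ≤ (N : ℝ) ^ θ := hXθ₀.trans (hNle _ _ hθθ)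
  have hzN' : z ≤ N := by
    have h1 : (z : ℝ) ≤ N := by
      calc (z : ℝ) ≤ (N : ℝ) ^ ε₀ := hzN
        _ ≤ (N : ℝ) ^ (1 : ℝ) := hNle _ _ (by linarith)
        _ = N := Real.rpow_one _
    exact_mod_cast h1
  have hXN' : X ≤ N := by
    have h1 : (X : ℝ) ≤ N := by
      calc (X : ℝ) ≤ (N : ℝ) ^ θ := hXθ
        _ ≤ (N : ℝ) ^ (1 : ℝ) := hNle _ _ (by linarith)
        _ = N := Real.rpow_one _
    exact_mod_cast h1
  have hNη : (1 : ℝ) ≤ (N : ℝ) ^ (1 - η) := Real.one_le_rpow hN1 (by linarith)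
  by_cases hsmall : N < N₀
  · -- small N
    have h1 := triv N z X (by omega) hzN' hXN' lam hlam.bd c c' hc.bd hc'.bd L L'
    have h2 : (∑' n : ℤ, Wt N n) * (N : ℝ) ^ 4 ≤ Bs := by
      rw [hBs]
      exact Finset.single_le_sum (f := fun N : ℕ => (∑' n : ℤ, Wt N n) * (N : ℝ) ^ 4)
        (fun N _ => hWs N) (Finset.mem_range.2 hsmall)
    have h3 : Bs ≤ Bs + (4 + 2 * C₂ + 6 * C₃ + 4 * C₄) := by
      have : 0 ≤ 4 + 2 * C₂ + 6 * C₃ + 4 * C₄ := by positivity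
      linarith
    calc _ ≤ Bs := h1.trans h2
      _ ≤ Bs + (4 + 2 * C₂ + 6 * C₃ + 4 * C₄) := h3
      _ ≤ (Bs + (4 + 2 * C₂ + 6 * C₃ + 4 * C₄)) * (N : ℝ) ^ (1 - η) :=
          le_mul_of_one_le_right (by positivity) hNη
  push Not at hsmall
  have hNN1 : N₁ ≤ N := (le_max_left _ _).trans hsmall
  have hNN2 : N₂ ≤ N := (le_max_right _ _).trans hsmall
  have hzε : (z : ℝ) ≤ (N : ℝ) ^ ε := hzN.trans (hNle _ _ (by linarith))
  -- one pair (q₁, q₂)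
  set K : ℝ := 4 + C₂ * ((N : ℝ) ^ (1 - ε) + X) +
    3 * (N + 1) * (C₃ * (N : ℝ) ^ (-(ε / 2))) with hK
  have hK0 : 0 ≤ K := by positivity
  have hz2 : (z : ℝ) ^ 2 ≤ (N : ℝ) ^ (2 * ε₀) := by
    calc (z : ℝ) ^ 2 ≤ ((N : ℝ) ^ ε₀) ^ 2 := pow_le_pow_left₀ (by positivity) hzN 2
      _ = (N : ℝ) ^ (2 * ε₀) := by
        rw [← Real.rpow_natCast, ← Real.rpow_mul hN0.le]
        congr 1
        push_cast
        ring
  have hpair : ∀ q₁ ∈ Icc 1 z, ∀ q₂ ∈ Icc 1 z, lam q₁ ≠ 0 → lam q₂ ≠ 0 →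
      |∑ d ∈ Icc 1 X, ∑ d' ∈ Icc 1 X,
        c d * c' d' * (SL N L L' (Nat.lcm q₁ q₂) d d' - SL N L L' (Nat.lcm q₁ q₂) d 1 / d' -
          SL N L L' (Nat.lcm q₁ q₂) 1 d' / d + SL N L L' (Nat.lcm q₁ q₂) 1 1 / (d * d'))| ≤ K := by
    intro q₁ hq₁ q₂ hq₂ hl₁ hl₂
    obtain ⟨h11, h12, h13⟩ := hlam.supp q₁ hl₁
    obtain ⟨h21, h22, h23⟩ := hlam.supp q₂ hl₂
    have hqpos' : 1 ≤ Nat.lcm q₁ q₂ := Nat.lcm_pos (by omega) (by omega)
    have hqdvd' : Nat.lcm q₁ q₂ ∣ q₁ * q₂ := Nat.lcm_dvd_mul q₁ q₂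
    generalize Nat.lcm q₁ q₂ = q at hqpos' hqdvd' ⊢
    have hqpos := hqpos'
    have hqle : (q : ℝ) ≤ (N : ℝ) ^ (2 * ε₀) := by
      have h1 : q ≤ q₁ * q₂ := Nat.le_of_dvd (Nat.mul_pos (by omega) (by omega)) hqdvd'
      have h2 : q ≤ z * z := h1.trans (Nat.mul_le_mul h12 h22)
      have h3 : (q : ℝ) ≤ (z : ℝ) ^ 2 := by
        rw [sq]; exact_mod_cast h2
      exact h3.trans hz2
    have hcop : ∀ d : ℕ, Rough ((N : ℝ) ^ ε) d → Nat.Coprime q d := by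
      intro d hd
      refine Nat.coprime_of_dvd ?_
      intro p hp hp1 hp2
      have h1 := hd.2 p hp hp2
      have h3 : p ∣ q₁ * q₂ := hp1.trans hqdvd'
      have h4 : p ≤ z := by
        rcases (Nat.Prime.dvd_mul hp).1 h3 with h4 | h4
        · exact (Nat.le_of_dvd (by omega) h4).trans h12
        · exact (Nat.le_of_dvd (by omega) h4).trans h22
      have h5 : (p : ℝ) ≤ z := by exact_mod_cast h4
      linarith
    -- evaluation for pairwise coprime moduli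
    have heval : ∀ d d' : ℕ, 1 ≤ d → 1 ≤ d' → d ≤ X ∨ d = 1 → d' ≤ X ∨ d' = 1 →
        Nat.Coprime q d → Nat.Coprime q d' → Nat.Coprime d d' → Nat.Coprime d L.2 →
        Nat.Coprime d' L'.2 → |SL N L L' q d d' - N / (q * d * d')| ≤ 1 / (N : ℝ) ^ 5 := by
      intro d d' hd1 hd1' hdX hdX' k1 k2 k3 k4 k5
      obtain ⟨s, hs⟩ := SL_prog N L L' q d d' k1 k2 k3 k4 k5
      rw [hs]
      have hdr : ∀ m : ℕ, 1 ≤ m → m ≤ X ∨ m = 1 → (m : ℝ) ≤ (N : ℝ) ^ θ := by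
        intro m _ hm
        rcases hm with hm | hm
        · exact (by exact_mod_cast hm : (m : ℝ) ≤ X).trans hXθ
        · rw [hm, Nat.cast_one]
          exact Real.one_le_rpow hN1 hθ0
      have hm : ((q * d * d' : ℕ) : ℝ) ≤ (N : ℝ) ^ (1 - (1 - 2 * θ) / 2) := by
        push_cast
        calc (q : ℝ) * d * d' ≤ (N : ℝ) ^ (2 * ε₀) * (N : ℝ) ^ θ * (N : ℝ) ^ θ := by
              have := hdr d hd1 hdX
              have := hdr d' hd1' hdX'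
              gcongr
          _ = (N : ℝ) ^ (2 * ε₀ + θ + θ) := by
              rw [← Real.rpow_add hN0, ← Real.rpow_add hN0]
          _ ≤ _ := hNle _ _ (by linarith)
      have h1 := hPA' N hNN1 (q * d * d') s (by
        have : 0 < q * d * d' := Nat.mul_pos (Nat.mul_pos hqpos hd1) hd1'
        omega) hm
      push_cast at h1 ⊢
      exact h1
    have hrough : ∀ (M : ℤ × ℕ) (u : ℕ → ℝ), CofL ((N : ℝ) ^ ε) X M u → ∀ d, u d ≠ 0 →
        1 ≤ d ∧ d ≤ X ∧ Nat.Coprime q d ∧ Nat.Coprime d M.2 := by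
      intro M u hu d hd
      obtain ⟨h1, h2, h3⟩ := hu.supp d hd
      exact ⟨h2.1.le, h1, hcop d h2, h3⟩
    refine one_q N q X ((N : ℝ) ^ ε) hN hqpos hXN' (SL N L L' q)
      (fun d d' => ∑' n : ℤ, (if ((d : ℤ) ∣ lf L n ∧ (d' : ℤ) ∣ lf L' n) then Wt N n else 0))
      (fun d d' => SL_nonneg N L L' q d d') (fun d d' => SL_le N (by omega) L L' q d d')
      c c' hc.bd hc'.bd (fun d hd => ⟨(hc.supp d hd).1, (hc.supp d hd).2.1⟩)
      (fun d hd => ⟨(hc'.supp d hd).1, (hc'.supp d hd).2.1⟩) ?_ ?_ ?_ ?_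
      (C₂ * ((N : ℝ) ^ (1 - ε) + X)) (C₃ * (N : ℝ) ^ (-(ε / 2))) ?_ ?_
    · have := heval 1 1 le_rfl le_rfl (Or.inr rfl) (Or.inr rfl) (Nat.coprime_one_right q)
        (Nat.coprime_one_right q) (Nat.coprime_one_right 1) (Nat.coprime_one_left _)
        (Nat.coprime_one_left _)
      simpa using this
    · intro d hd
      obtain ⟨a1, a2, a3, a4⟩ := hrough L c hc d hd
      have := heval d 1 a1 le_rfl (Or.inl a2) (Or.inr rfl) a3 (Nat.coprime_one_right q)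
        (Nat.coprime_one_right d) a4 (Nat.coprime_one_left _)
      simpa using this
    · intro d hd
      obtain ⟨a1, a2, a3, a4⟩ := hrough L' c' hc' d hd
      have := heval 1 d le_rfl a1 (Or.inr rfl) (Or.inl a2) (Nat.coprime_one_right q) a3
        (Nat.coprime_one_left d) (Nat.coprime_one_left _) a4
      simpa using this
    · intro d d' hd hd' hdd
      obtain ⟨a1, a2, a3, a4⟩ := hrough L c hc d hd
      obtain ⟨b1, b2, b3, b4⟩ := hrough L' c' hc' d' hd'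
      exact heval d d' a1 b1 (Or.inl a2) (Or.inl b2) a3 b3 hdd a4 b4
    · exact hNC' N X hN hXN' L L' hL hL' hne
    · have hsub : roughs ((N : ℝ) ^ ε) X ⊆ roughs ((N : ℝ) ^ ε) N := by
        classical
        intro d hd
        unfold roughs at hd ⊢
        rw [Finset.mem_filter, Finset.mem_Icc] at hd ⊢
        exact ⟨⟨hd.1.1, hd.1.2.trans hXN'⟩, hd.2⟩
      refine le_trans ?_ (hRB' N hN)
      calc ∑ d ∈ roughs ((N : ℝ) ^ ε) X,
            ∑ d' ∈ (roughs ((N : ℝ) ^ ε) X).filter (fun d' => ¬ Nat.Coprime d d'),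
              1 / ((d : ℝ) * d')
          ≤ ∑ d ∈ roughs ((N : ℝ) ^ ε) X,
            ∑ d' ∈ (roughs ((N : ℝ) ^ ε) N).filter (fun d' => ¬ Nat.Coprime d d'),
              1 / ((d : ℝ) * d') := by
            refine Finset.sum_le_sum fun d _ => ?_
            exact Finset.sum_le_sum_of_subset_of_nonneg (Finset.filter_subset_filter _ hsub)
              fun _ _ _ => by positivity
        _ ≤ _ := Finset.sum_le_sum_of_subset_of_nonneg hsub
              fun _ _ _ => Finset.sum_nonneg fun _ _ => by positivity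
  -- (1)
  have hs3 := expand N z X (by omega) lam c c' L L'
  have hpart1 : |∑' n : ℤ, Wt N n * nuS lam z n * (RL c X L n * RL c' X L' n)| ≤
      (z : ℝ) ^ 2 * K := by
    rw [hs3]
    refine (abs_dsum_le (Icc 1 z) lam lam hlam.bd hlam.bd _ (fun _ _ => K) ?_ ?_).trans ?_
    · intro q₁ hq₁ q₂ hq₂ h1 h2
      exact hpair q₁ hq₁ q₂ hq₂ h1 h2
    · intro _ _ _ _; exact hK0
    · simp only [Finset.sum_const, nsmul_eq_mul, Nat.card_Icc, Nat.add_sub_cancel]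
      exact le_of_eq (by ring)
  -- (2)
  classical
  obtain ⟨Z, hZ1, hZ⟩ := zero_set L hL.b1
  obtain ⟨Z', hZ1', hZ'⟩ := zero_set L' hL'.b1
  have hs1 : Summable (fun n : ℤ => Wt N n * nuS lam z n * (RL c X L n * RL c' X L' n)) :=
    BX.TaskEX.summ N z X (by omega) lam c c' _ _ (fun n => RL_abs c X L n)
      (fun n => RL_abs c' X L' n)
  have hs2 : Summable (fun n : ℤ => Wt N n * nuS lam z n * (rL c X L n * rL c' X L' n)) :=
    BX.TaskEX.summ N z X (by omega) lam c c' _ _ (fun n => rL_abs c X L n)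
      (fun n => rL_abs c' X L' n)
  have hdiff : ∑' n : ℤ, (Wt N n * nuS lam z n * (RL c X L n * RL c' X L' n) -
      Wt N n * nuS lam z n * (rL c X L n * rL c' X L' n)) =
      ∑ n ∈ Z ∪ Z', Wt N n * nuS lam z n * (RL c X L n * RL c' X L' n) := by
    rw [tsum_eq_sum (s := Z ∪ Z')]
    · refine Finset.sum_congr rfl fun n hn => ?_
      rcases Finset.mem_union.1 hn with h | h
      · have : rL c X L n = 0 := by unfold rL; rw [if_pos ((hZ n).1 h)]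
        rw [this]; ring
      · have : rL c' X L' n = 0 := by unfold rL; rw [if_pos ((hZ' n).1 h)]
        rw [this]; ring
    · intro n hn
      rw [Finset.mem_union, not_or, hZ n, hZ' n] at hn
      have e1 : rL c X L n = RL c X L n := by unfold rL; rw [if_neg hn.1]
      have e2 : rL c' X L' n = RL c' X L' n := by unfold rL; rw [if_neg hn.2]
      rw [e1, e2]; ring
  rw [Summable.tsum_sub hs1 hs2] at hdiff
  have hval : ∀ (M : ℤ × ℕ), Fo N M → ∀ (u : ℕ → ℝ), CofL ((N : ℝ) ^ ε) X M u → ∀ n : ℤ,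
      lf M n ≠ 0 → Wt N n * |RL u X M n| ≤ 2 * C₄ := by
    intro M hM u hu n hn
    have h1 := (hPB' N X hNN2 hXN' M hM).2 u hu n
    have h2 : rL u X M n = RL u X M n := by
      unfold rL; rw [if_neg hn]
    rw [h2] at h1
    calc Wt N n * |RL u X M n| ≤ Wt N n * (C₄ * (1 + |(n : ℝ)| / N) ^ (1 / 4 : ℝ)) :=
          mul_le_mul_of_nonneg_left h1 (Wt_nonneg N n)
      _ = C₄ * (Wt N n * (1 + |(n : ℝ)| / N) ^ (1 / 4 : ℝ)) := by ring
      _ ≤ C₄ * 2 := mul_le_mul_of_nonneg_left (Wt_growth N n) hC₄.le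
      _ = 2 * C₄ := by ring
  have hpt : ∀ n ∈ Z ∪ Z', |Wt N n * nuS lam z n * (RL c X L n * RL c' X L' n)| ≤
      (z : ℝ) ^ 2 * (X * (2 * C₄)) := by
    intro n hn
    rw [abs_mul, abs_mul, abs_mul, abs_of_nonneg (Wt_nonneg N n),
      abs_of_nonneg (nuS_nonneg lam z n)]
    have hnu := nuS_le lam hlam.bd z n
    have hnu0 := nuS_nonneg lam z n
    have hW := Wt_nonneg N n
    have key : Wt N n * (|RL c X L n| * |RL c' X L' n|) ≤ X * (2 * C₄) := by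
      rcases Finset.mem_union.1 hn with h | h
      · have h1 := hval L' hL' c' hc' n (zero_ne N L L' hL hL' hne n ((hZ n).1 h))
        have h2 := abs_RL_le c hc.bd X L n
        calc Wt N n * (|RL c X L n| * |RL c' X L' n|) =
              |RL c X L n| * (Wt N n * |RL c' X L' n|) := by ring
          _ ≤ X * (2 * C₄) := mul_le_mul h2 h1 (mul_nonneg hW (abs_nonneg _)) (by positivity)
      · have h1 := hval L hL c hc n (zero_ne N L' L hL' hL (Ne.symm hne) n ((hZ' n).1 h))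
        have h2 := abs_RL_le c' hc'.bd X L' n
        calc Wt N n * (|RL c X L n| * |RL c' X L' n|) =
              |RL c' X L' n| * (Wt N n * |RL c X L n|) := by ring
          _ ≤ X * (2 * C₄) := mul_le_mul h2 h1 (mul_nonneg hW (abs_nonneg _)) (by positivity)
    calc Wt N n * nuS lam z n * (|RL c X L n| * |RL c' X L' n|) =
          nuS lam z n * (Wt N n * (|RL c X L n| * |RL c' X L' n|)) := by ring
      _ ≤ (z : ℝ) ^ 2 * (X * (2 * C₄)) :=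
          mul_le_mul hnu key (mul_nonneg hW (by positivity)) (by positivity)
  have htot : |∑' n : ℤ, Wt N n * nuS lam z n * (rL c X L n * rL c' X L' n)| ≤
      (z : ℝ) ^ 2 * (K + 4 * C₄ * X) := by
    have h1 : ∑' n : ℤ, Wt N n * nuS lam z n * (rL c X L n * rL c' X L' n) =
        ∑' n : ℤ, Wt N n * nuS lam z n * (RL c X L n * RL c' X L' n) -
        ∑ n ∈ Z ∪ Z', Wt N n * nuS lam z n * (RL c X L n * RL c' X L' n) := by
      linarith
    have h2 : |∑ n ∈ Z ∪ Z', Wt N n * nuS lam z n * (RL c X L n * RL c' X L' n)| ≤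
        2 * ((z : ℝ) ^ 2 * (X * (2 * C₄))) := by
      refine (Finset.abs_sum_le_sum_abs _ _).trans ((Finset.sum_le_sum hpt).trans ?_)
      rw [Finset.sum_const, nsmul_eq_mul]
      apply mul_le_mul_of_nonneg_right _ (by positivity)
      have h3 : (Z ∪ Z').card ≤ 2 := (Finset.card_union_le _ _).trans (by omega)
      exact_mod_cast h3
    rw [h1]
    refine (abs_sub _ _).trans ((add_le_add hpart1 h2).trans (le_of_eq ?_))
    ring
  -- exponents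
  have hKX : 0 ≤ K + 4 * C₄ * X := by positivity
  have hZZ : ∀ s : ℝ, η + 2 * ε₀ + s ≤ 1 → (N : ℝ) ^ (2 * ε₀) * (N : ℝ) ^ s ≤
      (N : ℝ) ^ (1 - η) := by
    intro s hs
    rw [← Real.rpow_add hN0]
    exact hNle _ _ (by linarith)
  have g2 : (N : ℝ) ^ (2 * ε₀) ≤ (N : ℝ) ^ (1 - η) := hNle _ _ (by linarith)
  have g3 := hZZ (1 - ε) (by linarith)
  have g4 : (N : ℝ) ^ (2 * ε₀) * X ≤ (N : ℝ) ^ (1 - η) :=
    (mul_le_mul_of_nonneg_left hXθ (by positivity)).trans (hZZ θ (by linarith))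
  have g5 : (N : ℝ) ^ (2 * ε₀) * ((N + 1) * (N : ℝ) ^ (-(ε / 2))) ≤ 2 * (N : ℝ) ^ (1 - η) := by
    have h1 : ((N : ℝ) + 1) * (N : ℝ) ^ (-(ε / 2)) ≤ 2 * (N : ℝ) ^ (1 - ε / 2) := by
      have h2 : (N : ℝ) ^ (1 - ε / 2) = N * (N : ℝ) ^ (-(ε / 2)) := by
        rw [sub_eq_add_neg, Real.rpow_add hN0, Real.rpow_one]
      rw [h2]
      have h3 : (0 : ℝ) ≤ (N : ℝ) ^ (-(ε / 2)) := by positivity
      nlinarith
    calc (N : ℝ) ^ (2 * ε₀) * ((N + 1) * (N : ℝ) ^ (-(ε / 2)))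
        ≤ (N : ℝ) ^ (2 * ε₀) * (2 * (N : ℝ) ^ (1 - ε / 2)) :=
          mul_le_mul_of_nonneg_left h1 (by positivity)
      _ = 2 * ((N : ℝ) ^ (2 * ε₀) * (N : ℝ) ^ (1 - ε / 2)) := by ring
      _ ≤ 2 * (N : ℝ) ^ (1 - η) :=
          mul_le_mul_of_nonneg_left (hZZ (1 - ε / 2) (by linarith)) (by norm_num)
  calc |∑' n : ℤ, Wt N n * nuS lam z n * (rL c X L n * rL c' X L' n)|
      ≤ (z : ℝ) ^ 2 * (K + 4 * C₄ * X) := htot
    _ ≤ (N : ℝ) ^ (2 * ε₀) * (K + 4 * C₄ * X) := mul_le_mul_of_nonneg_right hz2 hKX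
    _ = 4 * (N : ℝ) ^ (2 * ε₀) +
        C₂ * ((N : ℝ) ^ (2 * ε₀) * (N : ℝ) ^ (1 - ε)) + C₂ * ((N : ℝ) ^ (2 * ε₀) * X) +
        3 * C₃ * ((N : ℝ) ^ (2 * ε₀) * ((N + 1) * (N : ℝ) ^ (-(ε / 2)))) +
        4 * C₄ * ((N : ℝ) ^ (2 * ε₀) * X) := by
        rw [hK]; ring
    _ ≤ 4 * (N : ℝ) ^ (1 - η) + C₂ * (N : ℝ) ^ (1 - η) +
        C₂ * (N : ℝ) ^ (1 - η) + 3 * C₃ * (2 * (N : ℝ) ^ (1 - η)) +
        4 * C₄ * (N : ℝ) ^ (1 - η) := by
        gcongr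
    _ = (4 + 2 * C₂ + 6 * C₃ + 4 * C₄) * (N : ℝ) ^ (1 - η) := by ring
    _ ≤ (Bs + (4 + 2 * C₂ + 6 * C₃ + 4 * C₄)) * (N : ℝ) ^ (1 - η) := by
        refine mul_le_mul_of_nonneg_right ?_ (by positivity)
        linarith

end Pool.Agent.W177.SG
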